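import Pool.Agent.H858R3.Lower
import Pool.Agent.H858R3.Upper

/-!
# The number of weak isomorphism classes of drawings is not monotone

The plane is `ℂ`.  Drawings are arbitrary simple topological graphs: the edges are Jordan arcs.
The definitions (`IsArc`, `IsProperCrossing`, `SimpleTopGraph`, `Cross`, `WeakIso`, `Tw`) are in
`Pool.Agent.H858R3.TopoGraph`.

The complete graph on five vertices has at most 23 weak isomorphism classes (a closed walk of
length four has at most one crossing), while the graph with the seven edges
`01, 02, 03, 04, 12, 13, 24` has at least 30.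
-/

set_option autoImplicit false

namespace Pool.Agent.Results.MP_6ffb05_co.NotMonotone

open Pool.Agent.H858R3.TopoGraph

/-- For some `n` there is a graph `H` with `n` vertices with `T_w(H) > T_w(K_n)`; this `H` is a
subgraph of `K_n`.  So the complete graph does not maximise `T_w` among the graphs with `n`
vertices, and `T_w` is not monotone under the subgraph relation. -/
theorem result : ∃ n : ℕ, ∃ H : SimpleGraph (Fin n), H ≤ (⊤ : SimpleGraph (Fin n)) ∧
    Tw (⊤ : SimpleGraph (Fin n)) < Tw H :=
  ⟨5, Pool.Agent.H858R3.PolyDraw.H, le_top,
    lt_of_le_of_lt Pool.Agent.H858R3.Upper.upper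
      (lt_of_lt_of_le (by norm_num) Pool.Agent.H858R3.Lower.lower)⟩

end Pool.Agent.Results.MP_6ffb05_co.NotMonotone
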